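import Pool.Agent.Helper28.T5.StW

/-!
# Project TK, all weights, module CC: two matrices with the same coordinates
-/

set_option autoImplicit false

namespace Pool.Agent.Helper28.T5W

open Pool.Agent.Helper28.TH (OkH ALPlus)

open Pool.Agent.Helper28.T5 Pool.Agent.Helper28.WK Pool.Agent.Helper14.CV
open Pool.Agent.Helper4.TL (OkE)

theorem hCC : SHCC := by
  intro p ν L R _ X hX x y c b v1 v2 w1 w2 hv hw hc hb
  obtain ⟨-, hX2⟩ := hX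
  have hlow : (p : ℤ) ^ (L + ν) ∣
      5 * (p : ℤ) ^ ν * y * (1 + 5 * (p : ℤ) ^ ν * c * x) - 5 * (p : ℤ) ^ ν * c := by
    obtain ⟨k, hk⟩ := hc
    refine ⟨-(5 * k), ?_⟩
    rw [pow_add]
    linear_combination (-(5 * (p : ℤ) ^ ν)) * hk
  have hev : (5 : ℤ) ∣
      5 * (p : ℤ) ^ ν * y * (1 + 5 * (p : ℤ) ^ ν * c * x) - 5 * (p : ℤ) ^ ν * c :=
    ⟨(p : ℤ) ^ ν * y * (1 + 5 * (p : ℤ) ^ ν * c * x) - (p : ℤ) ^ ν * c, by ring⟩
  have hup : (p : ℤ) ^ L ∣ b - x * (1 + b * (5 * (p : ℤ) ^ ν * y)) := by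
    obtain ⟨k, hk⟩ := hb
    exact ⟨k, by linear_combination hk⟩
  obtain ⟨k, hk⟩ := hX2
    ((1 + b * (5 * (p : ℤ) ^ ν * y)) * (1 + 5 * (p : ℤ) ^ ν * c * x) - b * (5 * (p : ℤ) ^ ν * c))
    (b - x * (1 + b * (5 * (p : ℤ) ^ ν * y)))
    (5 * (p : ℤ) ^ ν * y * (1 + 5 * (p : ℤ) ^ ν * c * x) - 5 * (p : ℤ) ^ ν * c)
    (1 - 5 * (p : ℤ) ^ ν * y * x) (Or.inl ⟨by ring, hev⟩) hup hlow
  have key : ∀ u1 u2 : ℤ, (u1 ≠ 0 ∨ u2 ≠ 0) →
      X (u1 + b * (5 * (p : ℤ) ^ ν * y * u1 + u2)) (5 * (p : ℤ) ^ ν * y * u1 + u2) =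
        X (u1 + x * u2) (5 * (p : ℤ) ^ ν * c * (u1 + x * u2) + u2) + k := by
    intro u1 u2 hu
    have hne : u1 + x * u2 ≠ 0 ∨ 5 * (p : ℤ) ^ ν * c * (u1 + x * u2) + u2 ≠ 0 := by
      by_contra hcon
      push Not at hcon
      obtain ⟨h1, h2⟩ := hcon
      rw [h1, mul_zero, zero_add] at h2
      rw [h2, mul_zero, add_zero] at h1
      rcases hu with hu | hu
      · exact hu h1
      · exact hu h2
    have h := hk (u1 + x * u2) (5 * (p : ℤ) ^ ν * c * (u1 + x * u2) + u2) hne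
    rw [← h]
    simp only [act]
    congr 1 <;> ring
  rw [key v1 v2 hv, key w1 w2 hw]
  abel

end Pool.Agent.Helper28.T5W
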