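import Pool.Agent.Helper28.T5.StW

/-!
# Project TK (q = 5), all weights, module Tr: transport of the Eichler potentials
-/

set_option autoImplicit false

namespace Pool.Agent.Helper28.T5W

open Pool.Agent.Helper28.TH (OkH ALPlus)

open Pool.Agent.Helper28.T5 Pool.Agent.Helper28.WK Pool.Agent.Helper28.T5 Pool.Agent.Helper14.CV
open Pool.Agent.Helper4.TL (OkE)
open Polynomial (X C)

private theorem pr_phi (p a : ℕ) (I : ℤ → ℤ → ℕ → ℂ) (P : Polynomial ℤ) (x y : ℤ) :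
    pr (PhiOf p a I) P x y = pr I (P.comp (C (p : ℤ) * X)) x (p * y) +
      ((-1 : ℤ) ^ a) • pr I (P.comp (C (-(p : ℤ)) * X)) (-x) (p * y) := by
  induction P using Polynomial.induction_on' with
  | add P Q hP hQ =>
    rw [pr_add, Polynomial.add_comp, Polynomial.add_comp, pr_add, pr_add]
    simp only [Pi.add_apply, hP, hQ, smul_add]
    abel
  | monomial n c =>
    have h1 : (Polynomial.monomial n c : Polynomial ℤ) = C c * X ^ n :=
      (Polynomial.C_mul_X_pow_eq_monomial).symm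
    have h2 : ∀ t : ℤ, (C c * X ^ n : Polynomial ℤ).comp (C t * X) = C c * (C (t ^ n) * X ^ n) := by
      intro t
      simp [Polynomial.mul_comp, mul_pow]
    rw [h1, h2, h2]
    simp only [pr_C_mul, pr_X_pow, Pi.smul_apply, cp, PhiOf, smul_add, smul_smul]
    congr 2
    rw [pow_add, neg_pow (p : ℤ) n]
    ring

section

variable {p a ν : ℕ} {I : ℤ → ℤ → ℕ → ℂ}

private theorem homog_pr (h : IDataH p a ν I) (P : Polynomial ℤ) (hP : P.natDegree ≤ 2 * a) :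
    Homog (pr I P) := by
  intro k x y hk hxy
  rw [pr_eq_sum I P (2 * a + 1) (by omega)]
  simp only [Finset.sum_apply, Pi.smul_apply]
  refine Finset.sum_congr rfl fun i hi => ?_
  rw [Finset.mem_range] at hi
  rw [h.hom i (by omega) k x y hk hxy]

private theorem eqv' (h : IDataH p a ν I) {α β γ δ : ℤ} (hd : α * δ - β * γ = 1)
    (hγ : 5 * (p : ℤ) ^ (ν + 2) ∣ γ) (F : Finset ℕ) (b : ℕ → ℤ) (e : ℕ → ℕ)
    (he : ∀ k ∈ F, e k ≤ 2 * a) :
    EqC (act α β γ δ (pr I (∑ k ∈ F, C (b k) * X ^ (e k))))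
      (pr I (∑ k ∈ F, C (b k) *
        ((C α * X + C β) ^ e k * (C γ * X + C δ) ^ (2 * a - e k)))) := by
  rw [pr_sum, pr_sum]
  have h1 : act α β γ δ (∑ k ∈ F, pr I (C (b k) * X ^ (e k))) =
      ∑ k ∈ F, b k • act α β γ δ (cp I (e k)) := by
    funext x y
    simp only [act, Finset.sum_apply, pr_C_mul, pr_X_pow, Pi.smul_apply]
  rw [h1]
  refine Pool.Agent.Helper28.WK.EqC.sum F fun k hk => ?_
  rw [pr_C_mul]
  exact (h.eqv α β γ δ hd hγ (e k) (he k hk)).smul (b k)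

private theorem trans1 (h : IDataH p a ν I) (P : Polynomial ℤ) (hP : P.natDegree ≤ 2 * a) :
    EqC (act 1 1 0 1 (pr I P)) (pr I (P.comp (X + 1))) := by
  have h1 := eqv' h (α := 1) (β := 1) (γ := 0) (δ := 1) (by norm_num) (dvd_zero _)
    (Finset.range (2 * a + 1)) P.coeff id (fun k hk => by
      rw [Finset.mem_range] at hk
      simp only [id]
      omega)
  have h2 : ∑ k ∈ Finset.range (2 * a + 1), C (P.coeff k) * X ^ (id k) = P :=
    (P.as_sum_range_C_mul_X_pow' (by omega)).symm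
  have h3 : ∑ k ∈ Finset.range (2 * a + 1), C (P.coeff k) *
      ((C (1 : ℤ) * X + C 1) ^ id k * (C (0 : ℤ) * X + C 1) ^ (2 * a - id k)) = P.comp (X + 1) := by
    rw [Polynomial.comp, Polynomial.eval₂_eq_sum_range' C (by omega : P.natDegree < 2 * a + 1)]
    refine Finset.sum_congr rfl fun k _ => by simp
  rwa [h2, h3] at h1

private theorem trans2 (h : IDataH p a ν I) (j : ℕ) (hj : j ≤ 2 * a) (s c : ℤ)
    (hc : 5 * (p : ℤ) ^ (ν + 2) ∣ c) :
    EqC (act 1 0 c 1 (pr I (X ^ j * (1 - C s * X) ^ (2 * a - j))))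
      (pr I (X ^ j * (1 - C (s - c) * X) ^ (2 * a - j))) := by
  have h1 := eqv' h (α := 1) (β := 0) (γ := c) (δ := 1) (by norm_num) hc
    (Finset.range (2 * a - j + 1)) (fun k => (-s) ^ k * ((2 * a - j).choose k : ℤ)) (fun k => j + k)
    (fun k hk => by
      rw [Finset.mem_range] at hk
      omega)
  have h2 : ∑ k ∈ Finset.range (2 * a - j + 1), C ((-s) ^ k * ((2 * a - j).choose k : ℤ)) * X ^ (j + k) =
      (X ^ j * (1 - C s * X) ^ (2 * a - j) : Polynomial ℤ) := by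
    have e : (1 - C s * X : Polynomial ℤ) = C (-s) * X + 1 := by
      rw [Polynomial.C_neg]
      ring
    rw [e, add_pow, Finset.mul_sum]
    refine Finset.sum_congr rfl fun k _ => ?_
    rw [one_pow, mul_pow, Polynomial.C_mul, Polynomial.C_pow, pow_add, map_natCast]
    ring
  have h3 : ∑ k ∈ Finset.range (2 * a - j + 1), C ((-s) ^ k * ((2 * a - j).choose k : ℤ)) *
      ((C (1 : ℤ) * X + C 0) ^ (j + k) * (C c * X + C 1) ^ (2 * a - (j + k))) =
      (X ^ j * (1 - C (s - c) * X) ^ (2 * a - j) : Polynomial ℤ) := by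
    have e : (1 - C (s - c) * X : Polynomial ℤ) = C (-s) * X + (C c * X + 1) := by
      rw [Polynomial.C_neg, Polynomial.C_sub]
      ring
    rw [e, add_pow, Finset.mul_sum]
    refine Finset.sum_congr rfl fun k _ => ?_
    rw [mul_pow, Polynomial.C_mul, Polynomial.C_pow, Nat.sub_add_eq, map_natCast]
    simp only [map_one, map_zero, one_mul, add_zero, pow_add]
    ring
  rwa [h2, h3] at h1

private theorem sum_neg_idx (p : ℕ) (T : ℤ → ℤ → ℤ → ℂ) (hT : ∀ i : ℤ, EqC (T (i + p)) (T i)) :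
    EqC (∑ i ∈ Finset.range p, T (-(i : ℤ))) (∑ i ∈ Finset.range p, T (i : ℤ)) := by
  have h1 : ∑ i ∈ Finset.range p, T (-(i : ℤ)) = ∑ i ∈ Finset.range p, T ((i : ℤ) + 1 - p) := by
    rw [← Finset.sum_range_reflect]
    refine Finset.sum_congr rfl fun i hi => ?_
    rw [Finset.mem_range] at hi
    congr 1
    omega
  have h2 : EqC (∑ i ∈ Finset.range p, T ((i : ℤ) + 1 - p)) (∑ i ∈ Finset.range p, T ((i : ℤ) + 1)) := by
    refine Pool.Agent.Helper28.WK.EqC.sum _ fun i _ => ?_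
    have := (hT ((i : ℤ) + 1 - p)).symm
    rwa [sub_add_cancel] at this
  have h3 : ∑ i ∈ Finset.range p, T ((i : ℤ) + 1) = (∑ i ∈ Finset.range p, T (i : ℤ)) + (T p - T 0) := by
    have e1 := Finset.sum_range_succ (fun i : ℕ => T (i : ℤ)) p
    have e2 := Finset.sum_range_succ' (fun i : ℕ => T (i : ℤ)) p
    rw [e1] at e2
    push_cast at e2
    rw [add_sub, e2]
    simp
  have h4 : EqC (T p - T 0) 0 := by
    have h5 := hT 0
    rw [zero_add] at h5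
    have h6 := h5.sub (EqC.refl (T 0))
    rwa [sub_self] at h6
  rw [h1]
  refine h2.trans ?_
  rw [h3]
  have h5 := (EqC.refl (∑ i ∈ Finset.range p, T (i : ℤ))).add h4
  rwa [add_zero] at h5

private theorem ne_p {p : ℕ} (hp : p.Prime) : (p : ℤ) ≠ 0 := by exact_mod_cast hp.ne_zero

private theorem ne_vec {p : ℕ} (hp : p.Prime) {x y : ℤ} (h : x ≠ 0 ∨ y ≠ 0) : x ≠ 0 ∨ (p : ℤ) * y ≠ 0 := by
  rcases h with h | h
  · exact Or.inl h
  · exact Or.inr (mul_ne_zero (ne_p hp) h)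

private theorem ne_vec2 {p : ℕ} (hp : p.Prime) {x y : ℤ} (i : ℤ) (h : x ≠ 0 ∨ y ≠ 0) :
    x + i * y ≠ 0 ∨ (p : ℤ) * y ≠ 0 := by
  by_cases hy : y = 0
  · left
    subst hy
    simpa using h
  · exact Or.inr (mul_ne_zero (ne_p hp) hy)

private theorem deg_lin (u i : ℤ) (j : ℕ) : ((C u * X - C i) ^ j : Polynomial ℤ).natDegree ≤ j := by
  refine (Polynomial.natDegree_pow_le).trans ?_
  have h1 : (C u * X - C i : Polynomial ℤ).natDegree ≤ 1 := by
    rw [sub_eq_add_neg, ← Polynomial.C_neg]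
    exact Polynomial.natDegree_linear_le
  nlinarith

private theorem p_gen (hp : p.Prime) (K : ℤ) (α β' γ δ : ℤ) (i : ℕ)
    (g1 : EqC (K • act α β' (p * γ) δ (cp I i)) (pr I ((C α * X + C β') ^ i *
      (C (p * γ) * X + C δ) ^ (2 * a - i))))
    (g2 : EqC (K • act α (-β') (-(p * γ)) δ (cp I i)) (pr I ((C α * X + C (-β')) ^ i *
      (C (-(p * γ)) * X + C δ) ^ (2 * a - i)))) :
    EqC (K • act α (p * β') γ δ (cp (PhiOf p a I) i)) (pr (PhiOf p a I) ((C α * X + C (p * β')) ^ i *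
      (C γ * X + C δ) ^ (2 * a - i))) := by
  have h1 := g1.act (a := 1) (b := 0) (c := 0) (d := (p : ℤ)) (by simpa using ne_p hp)
  have h2 := g2.act (a := -1) (b := 0) (c := 0) (d := (p : ℤ)) (by simpa using ne_p hp)
  have h3 := (h1.smul ((p : ℤ) ^ i)).add (h2.smul ((-1 : ℤ) ^ (a + i) * (p : ℤ) ^ i))
  have e1 : ((p : ℤ) ^ i) • act 1 0 0 (p : ℤ) (K • act α β' (p * γ) δ (cp I i)) +
      ((-1 : ℤ) ^ (a + i) * (p : ℤ) ^ i) • act (-1) 0 0 (p : ℤ) (K • act α (-β') (-(p * γ)) δ (cp I i)) =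
      K • act α (p * β') γ δ (cp (PhiOf p a I) i) := by
    funext x y
    simp only [Pi.add_apply, Pi.smul_apply, act, cp, PhiOf]
    have a1 : α * (1 * x + 0 * y) + β' * (0 * x + p * y) = α * x + p * β' * y := by ring
    have a2 : p * γ * (1 * x + 0 * y) + δ * (0 * x + p * y) = p * (γ * x + δ * y) := by ring
    have a3 : α * (-1 * x + 0 * y) + -β' * (0 * x + p * y) = -(α * x + p * β' * y) := by ring
    have a4 : -(p * γ) * (-1 * x + 0 * y) + δ * (0 * x + p * y) = p * (γ * x + δ * y) := by ring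
    rw [a1, a2, a3, a4, smul_add, smul_smul, smul_smul, smul_smul, smul_smul, mul_comm K, mul_comm K]
  have b1 : ((C α * X + C (p * β')) ^ i * (C γ * X + C δ) ^ (2 * a - i) : Polynomial ℤ).comp
      (C (p : ℤ) * X) = C ((p : ℤ) ^ i) * ((C α * X + C β') ^ i * (C (p * γ) * X + C δ) ^ (2 * a - i)) := by
    have c1 : (C α * (C (p : ℤ) * X) + C (p * β') : Polynomial ℤ) = C (p : ℤ) * (C α * X + C β') := by
      rw [Polynomial.C_mul]
      ring
    have c2 : (C γ * (C (p : ℤ) * X) + C δ : Polynomial ℤ) = C (p * γ) * X + C δ := by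
      rw [Polynomial.C_mul]
      ring
    rw [Polynomial.mul_comp, Polynomial.pow_comp, Polynomial.pow_comp, Polynomial.add_comp, Polynomial.add_comp,
      Polynomial.mul_comp, Polynomial.mul_comp, Polynomial.C_comp, Polynomial.C_comp, Polynomial.C_comp,
      Polynomial.C_comp, Polynomial.X_comp, c1, c2, mul_pow, Polynomial.C_pow, mul_assoc]
  have b2 : ((C α * X + C (p * β')) ^ i * (C γ * X + C δ) ^ (2 * a - i) : Polynomial ℤ).comp
      (C (-(p : ℤ)) * X) = C ((-1) ^ i * (p : ℤ) ^ i) *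
        ((C α * X + C (-β')) ^ i * (C (-(p * γ)) * X + C δ) ^ (2 * a - i)) := by
    have c1 : (C α * (C (-(p : ℤ)) * X) + C (p * β') : Polynomial ℤ) = C (-(p : ℤ)) * (C α * X + C (-β')) := by
      rw [Polynomial.C_mul, Polynomial.C_neg, Polynomial.C_neg]
      ring
    have c2 : (C γ * (C (-(p : ℤ)) * X) + C δ : Polynomial ℤ) = C (-(p * γ)) * X + C δ := by
      rw [Polynomial.C_neg, Polynomial.C_neg, Polynomial.C_mul]
      ring
    rw [Polynomial.mul_comp, Polynomial.pow_comp, Polynomial.pow_comp, Polynomial.add_comp, Polynomial.add_comp,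
      Polynomial.mul_comp, Polynomial.mul_comp, Polynomial.C_comp, Polynomial.C_comp, Polynomial.C_comp,
      Polynomial.C_comp, Polynomial.X_comp, c1, c2, mul_pow, ← Polynomial.C_pow, neg_pow, mul_assoc]
  have e2 : ((p : ℤ) ^ i) • act 1 0 0 (p : ℤ) (pr I ((C α * X + C β') ^ i * (C (p * γ) * X + C δ) ^ (2 * a - i))) +
      ((-1 : ℤ) ^ (a + i) * (p : ℤ) ^ i) • act (-1) 0 0 (p : ℤ)
        (pr I ((C α * X + C (-β')) ^ i * (C (-(p * γ)) * X + C δ) ^ (2 * a - i))) =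
      pr (PhiOf p a I) ((C α * X + C (p * β')) ^ i * (C γ * X + C δ) ^ (2 * a - i)) := by
    funext x y
    rw [pr_phi, b1, b2, pr_C_mul, pr_C_mul]
    simp only [Pi.add_apply, Pi.smul_apply, act, smul_smul]
    have a1 : 1 * x + 0 * y = x := by ring
    have a2 : 0 * x + (p : ℤ) * y = p * y := by ring
    have a3 : -1 * x + 0 * y = -x := by ring
    rw [a1, a2, a3]
    congr 2
    rw [pow_add]
    ring
  rw [e1, e2] at h3
  exact h3

private theorem dvd_two (hp : p.Prime) (hp2 : p ≠ 5) {γ : ℤ} (h2 : (5 : ℤ) ∣ γ) (hγ : (p : ℤ) ^ (ν + 1) ∣ γ) :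
    5 * (p : ℤ) ^ (ν + 2) ∣ p * γ := by
  have hc : IsCoprime (5 : ℤ) ((p : ℤ) ^ (ν + 1)) := by
    refine IsCoprime.pow_right ?_
    have h3 : IsCoprime ((5 : ℕ) : ℤ) (p : ℤ) := by
      rw [Nat.isCoprime_iff_coprime]
      exact (Nat.coprime_primes Nat.prime_five hp).2 (Ne.symm hp2)
    exact_mod_cast h3
  obtain ⟨c, rfl⟩ := hc.mul_dvd h2 hγ
  exact ⟨c, by ring⟩

private theorem p_eqv (hp : p.Prime) (hp2 : p ≠ 5) (h : IDataH p a ν I) : ∀ α β γ δ : ℤ,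
    α * δ - β * γ = 1 → (p : ℤ) ∣ β → (5 : ℤ) ∣ γ →
    (p : ℤ) ^ (ν + 1) ∣ γ → ∀ i : ℕ, i ≤ 2 * a →
    EqC (act α β γ δ (cp (PhiOf p a I) i)) (pr (PhiOf p a I) ((C α * X + C β) ^ i *
      (C γ * X + C δ) ^ (2 * a - i))) := by
  intro α β γ δ hd hβ h2 hγ i hi
  obtain ⟨β', rfl⟩ := hβ
  have hγ' := dvd_two hp hp2 h2 hγ
  have h1 := h.eqv α β' (p * γ) δ (by linear_combination hd) hγ' i hi
  have h2 := h.eqv α (-β') (-(p * γ)) δ (by linear_combination hd) ((dvd_neg).2 hγ') i hi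
  have h3 := p_gen hp 1 α β' γ δ i (by rwa [one_smul]) (by rwa [one_smul])
  rwa [one_smul] at h3

private theorem p_eqq (hp : p.Prime) (hp2 : p ≠ 5) (h : IDataH p a ν I) : ∀ α β γ δ : ℤ,
    α * δ - β * γ = 5 → (5 : ℤ) ∣ α → (5 : ℤ) ∣ γ → (5 : ℤ) ∣ δ → (p : ℤ) ∣ β →
    (p : ℤ) ^ (ν + 1) ∣ γ → ∀ i : ℕ, i ≤ 2 * a →
    EqC ((5 ^ a : ℤ) • act α β γ δ (cp (PhiOf p a I) i)) (pr (PhiOf p a I) ((C α * X + C β) ^ i *
      (C γ * X + C δ) ^ (2 * a - i))) := by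
  intro α β γ δ hd hα h2 hδ hβ hγ i hi
  obtain ⟨β', rfl⟩ := hβ
  have hγ' := dvd_two hp hp2 h2 hγ
  have h1 := h.eqq α β' (p * γ) δ (by linear_combination hd) hα hδ hγ' i hi
  have h2 := h.eqq α (-β') (-(p * γ)) δ (by linear_combination hd) hα hδ ((dvd_neg).2 hγ') i hi
  exact p_gen hp (5 ^ a) α β' γ δ i h1 h2

private theorem p_tt (hp : p.Prime) (h : IDataH p a ν I) : ∀ j : ℕ, j ≤ 2 * a → EqC (fun x y => ∑ i ∈ Finset.range p,
    pr (PhiOf p a I) ((X - C (i : ℤ)) ^ j) (x + i * y) y) 0 := by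
  intro j hj
  obtain ⟨c, hc⟩ := h.tt j hj
  have hS : ∀ x y : ℤ, (x ≠ 0 ∨ y ≠ 0) → ∑ i ∈ Finset.range p,
      pr I ((C (p : ℤ) * X - C (i : ℤ)) ^ j) (x + i * y) (p * y) = c := by
    intro x y hxy
    have h1 := hc x (p * y) (ne_vec hp hxy)
    simp only [Pi.zero_apply, zero_add] at h1
    rw [← h1]
    refine Finset.sum_congr rfl fun i _ => ?_
    have h2 := homog_pr h ((C (p : ℤ) * X - C (i : ℤ)) ^ j) ((deg_lin _ _ _).trans hj) p (x + i * y) (p * y)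
      (ne_p hp) (ne_vec2 hp i hxy)
    rw [← h2]
    congr 1
    ring
  set T : ℤ → ℤ → ℤ → ℂ := fun i => act (-1) i 0 p (pr I ((C (p : ℤ) * X - C i) ^ j)) with hT
  have hper : ∀ i : ℤ, EqC (T (i + p)) (T i) := by
    intro i
    have h1 := trans1 h ((C (p : ℤ) * X - C (i + p)) ^ j) ((deg_lin _ _ _).trans hj)
    have h2 := h1.act (a := -1) (b := i) (c := 0) (d := (p : ℤ)) (by simpa using ne_p hp)
    rw [act_act] at h2
    have e1 : ((C (p : ℤ) * X - C (i + p)) ^ j : Polynomial ℤ).comp (X + 1) = (C (p : ℤ) * X - C i) ^ j := by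
      rw [Polynomial.pow_comp, Polynomial.sub_comp, Polynomial.mul_comp, Polynomial.C_comp, Polynomial.C_comp,
        Polynomial.X_comp, Polynomial.C_add]
      congr 1
      ring
    rw [e1] at h2
    have e2 : (1 : ℤ) * -1 + 1 * 0 = -1 := by norm_num
    have e3 : 1 * i + 1 * (p : ℤ) = i + p := by ring
    have e4 : (0 : ℤ) * -1 + 1 * 0 = 0 := by norm_num
    have e5 : 0 * i + 1 * (p : ℤ) = p := by ring
    rw [e2, e3, e4, e5] at h2
    exact h2
  have h0 : EqC (∑ i ∈ Finset.range p, T (i : ℤ)) 0 := by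
    refine ⟨c, fun x y hxy => ?_⟩
    simp only [Finset.sum_apply, Pi.zero_apply, zero_add]
    rw [← hS (-x) y (by simpa using hxy)]
    refine Finset.sum_congr rfl fun i _ => ?_
    simp only [hT, act]
    congr 1 <;> ring
  have h1 : EqC (∑ i ∈ Finset.range p, T (-(i : ℤ))) 0 := (sum_neg_idx p T hper).trans h0
  obtain ⟨c', hc'⟩ := h1
  refine ⟨c + ((-1 : ℤ) ^ (a + j)) • c', fun x y hxy => ?_⟩
  have h2 := hS x y hxy
  have h3 := hc' x y hxy
  simp only [Pi.zero_apply, zero_add] at h3 ⊢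
  rw [← h2, ← h3, Finset.sum_apply, Finset.sum_apply, Finset.smul_sum, ← Finset.sum_add_distrib]
  refine Finset.sum_congr rfl fun i _ => ?_
  rw [pr_phi]
  have e1 : ((X - C (i : ℤ)) ^ j : Polynomial ℤ).comp (C (p : ℤ) * X) = (C (p : ℤ) * X - C (i : ℤ)) ^ j := by
    rw [Polynomial.pow_comp, Polynomial.sub_comp, Polynomial.C_comp, Polynomial.X_comp]
  have e2 : ((X - C (i : ℤ)) ^ j : Polynomial ℤ).comp (C (-(p : ℤ)) * X) =
      C ((-1) ^ j) * (C (p : ℤ) * X - C (-(i : ℤ))) ^ j := by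
    rw [Polynomial.pow_comp, Polynomial.sub_comp, Polynomial.C_comp, Polynomial.X_comp, Polynomial.C_pow, ← mul_pow]
    congr 1
    simp only [Polynomial.C_neg, map_one]
    ring
  rw [e1, e2, pr_C_mul]
  simp only [Pi.smul_apply, hT, act, smul_smul, ← pow_add]
  congr 3 <;> ring

private theorem p_ss (hp : p.Prime) (h : IDataH p a ν I) : ∀ j : ℕ, j ≤ 2 * a → EqC (fun x y => ∑ i ∈ Finset.range p,
    pr (PhiOf p a I) (X ^ j * (1 - C (5 * (p : ℤ) ^ ν * i) * X) ^ (2 * a - j))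
      x (5 * (p : ℤ) ^ ν * i * x + y)) 0 := by
  intro j hj
  set T : ℤ → ℤ → ℤ → ℂ := fun i => act 1 0 (5 * (p : ℤ) ^ (ν + 1) * i) 1
    (pr I (X ^ j * (1 - C (5 * (p : ℤ) ^ (ν + 1) * i) * X) ^ (2 * a - j))) with hT
  have h0 : EqC (∑ i ∈ Finset.range p, T (i : ℤ)) 0 := by
    obtain ⟨c, hc⟩ := h.ss j hj
    refine ⟨c, fun x y hxy => ?_⟩
    rw [← hc x y hxy, Finset.sum_apply, Finset.sum_apply]
    refine Finset.sum_congr rfl fun i _ => ?_
    simp only [hT, act]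
    congr 1 <;> ring
  have hper : ∀ i : ℤ, EqC (T (i + p)) (T i) := by
    intro i
    have h1 := trans2 h j hj (5 * (p : ℤ) ^ (ν + 1) * (i + p)) ((5 * (p : ℤ) ^ (ν + 2))) (dvd_refl _)
    have h2 := h1.act (a := 1) (b := 0) (c := 5 * (p : ℤ) ^ (ν + 1) * i) (d := 1) (by norm_num)
    rw [act_act] at h2
    have e1 : 5 * (p : ℤ) ^ (ν + 1) * (i + p) - (5 * (p : ℤ) ^ (ν + 2)) = 5 * (p : ℤ) ^ (ν + 1) * i := by ring
    have e2 : (1 : ℤ) * 1 + 0 * (5 * (p : ℤ) ^ (ν + 1) * i) = 1 := by ring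
    have e3 : (1 : ℤ) * 0 + 0 * 1 = 0 := by norm_num
    have e4 : (5 * (p : ℤ) ^ (ν + 2)) * 1 + 1 * (5 * (p : ℤ) ^ (ν + 1) * i) = 5 * (p : ℤ) ^ (ν + 1) * (i + p) := by ring
    have e5 : (5 * (p : ℤ) ^ (ν + 2)) * 0 + 1 * 1 = 1 := by ring
    rw [e1, e2, e3, e4, e5] at h2
    exact h2
  have h1 : EqC (∑ i ∈ Finset.range p, T (-(i : ℤ))) 0 := (sum_neg_idx p T hper).trans h0
  obtain ⟨c, hc⟩ := h0
  obtain ⟨c', hc'⟩ := h1
  refine ⟨((p : ℤ) ^ j) • c + ((-1 : ℤ) ^ a * (-(p : ℤ)) ^ j) • c', fun x y hxy => ?_⟩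
  have h2 := hc x (p * y) (ne_vec hp hxy)
  have h3 := hc' (-x) (p * y) (ne_vec hp (by simpa using hxy))
  simp only [Pi.zero_apply, zero_add] at h2 h3 ⊢
  rw [← h2, ← h3, Finset.sum_apply, Finset.sum_apply, Finset.sum_apply, Finset.sum_apply, Finset.smul_sum,
    Finset.smul_sum, ← Finset.sum_add_distrib]
  refine Finset.sum_congr rfl fun i _ => ?_
  rw [pr_phi]
  have e0 : ∀ t : ℤ, (X ^ j * (1 - C (5 * (p : ℤ) ^ ν * i) * X) ^ (2 * a - j) : Polynomial ℤ).comp (C t * X) =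
      C (t ^ j) * (X ^ j * (1 - C (5 * (p : ℤ) ^ ν * i * t) * X) ^ (2 * a - j)) := by
    intro t
    rw [Polynomial.mul_comp, Polynomial.pow_comp, Polynomial.pow_comp, Polynomial.sub_comp, Polynomial.mul_comp,
      Polynomial.C_comp, Polynomial.X_comp, Polynomial.one_comp, mul_pow, Polynomial.C_pow,
      Polynomial.C_mul (a := 5 * (p : ℤ) ^ ν * i)]
    ring
  rw [e0, e0, pr_C_mul, pr_C_mul]
  simp only [Pi.smul_apply, hT, act, smul_smul]
  have a1 : 5 * (p : ℤ) ^ ν * i * p = 5 * (p : ℤ) ^ (ν + 1) * i := by ring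
  have a2 : 5 * (p : ℤ) ^ ν * i * -p = 5 * (p : ℤ) ^ (ν + 1) * -i := by ring
  have a3 : p * (5 * (p : ℤ) ^ ν * i * x + y) = 5 * (p : ℤ) ^ (ν + 1) * i * x + 1 * (p * y) := by ring
  have a4 : 5 * (p : ℤ) ^ (ν + 1) * i * x + 1 * (p * y) = 5 * (p : ℤ) ^ (ν + 1) * -i * -x + 1 * (p * y) := by ring
  have a5 : 1 * x + 0 * (p * y) = x := by ring
  have a6 : 1 * -x + 0 * (p * y) = -x := by ring
  rw [a1, a2, a3, a5, a6]
  congr 2
  rw [a4]

private theorem p_fr (hp : p.Prime) (h : IDataH p a ν I) :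
    EqC (act 0 (-1) (5 * (p : ℤ) ^ ν) 0 (cp (PhiOf p a I) a)) (-(cp (PhiOf p a I) a)) := by
  obtain ⟨c, hc⟩ := h.fr
  have hH := h.hom a (by omega)
  refine ⟨(2 * (p : ℤ) ^ a) • c, fun x y hxy => ?_⟩
  have hn1 : x ≠ 0 ∨ (p : ℤ) * y ≠ 0 := ne_vec hp hxy
  have hn2 : -x ≠ 0 ∨ (p : ℤ) * y ≠ 0 := ne_vec hp (by simpa using hxy)
  have hp1 : 5 * (p : ℤ) ^ (ν + 1) ≠ 0 := mul_ne_zero (by norm_num) (pow_ne_zero _ (ne_p hp))
  have h1 := hc x (p * y) hn1
  have h2 := hc (-x) (p * y) hn2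
  have hv1 : -y ≠ 0 ∨ 5 * (p : ℤ) ^ (ν + 1) * x ≠ 0 := by
    rcases hxy with hx | hy
    · exact Or.inr (mul_ne_zero hp1 hx)
    · exact Or.inl (neg_ne_zero.2 hy)
  have hv2 : y ≠ 0 ∨ 5 * (p : ℤ) ^ (ν + 1) * x ≠ 0 := by
    rcases hxy with hx | hy
    · exact Or.inr (mul_ne_zero hp1 hx)
    · exact Or.inl hy
  have h3 := hH p (-y) (5 * (p : ℤ) ^ (ν + 1) * x) (ne_p hp) hv1
  have h4 := hH (-p) y (5 * (p : ℤ) ^ (ν + 1) * x) (neg_ne_zero.2 (ne_p hp)) hv2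
  simp only [act, cp, Pi.neg_apply] at h1 h2 h3 h4
  have e1 : (0 : ℤ) * x + -1 * (p * y) = p * -y := by ring
  have e2 : 5 * (p : ℤ) ^ (ν + 2) * x + 0 * (p * y) = p * (5 * (p : ℤ) ^ (ν + 1) * x) := by ring
  have e3 : (0 : ℤ) * -x + -1 * (p * y) = -p * y := by ring
  have e4 : 5 * (p : ℤ) ^ (ν + 2) * -x + 0 * (p * y) = -p * (5 * (p : ℤ) ^ (ν + 1) * x) := by ring
  rw [e1, e2, h3] at h1
  rw [e3, e4, h4] at h2
  simp only [act, cp, Pi.neg_apply, PhiOf]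
  have e5 : (0 : ℤ) * x + -1 * y = -y := by ring
  have e6 : (p : ℤ) * (5 * (p : ℤ) ^ ν * x + 0 * y) = 5 * (p : ℤ) ^ (ν + 1) * x := by ring
  have e7 : (-1 : ℤ) ^ (a + a) = 1 := Even.neg_one_pow ⟨a, rfl⟩
  rw [e5, e6, neg_neg, h1, h2, e7, one_mul, smul_add, smul_add, smul_neg, smul_neg, mul_smul, two_smul]
  abel

private theorem p_st (_h : IDataH p a ν I) :
    EqC (act (-1) 0 0 1 (cp (PhiOf p a I) a)) (cp (PhiOf p a I) a) := by
  refine EqC.of_eq fun x y _ => ?_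
  simp only [act, cp, PhiOf]
  have e1 : -1 * x + 0 * y = -x := by ring
  have e2 : 0 * x + 1 * y = y := by ring
  have e7 : (-1 : ℤ) ^ (a + a) = 1 := Even.neg_one_pow ⟨a, rfl⟩
  rw [e1, e2, neg_neg, e7, one_mul, add_comm]

/-- the Hecke operators multiply the symmetrised potentials by constants -/
private theorem hecke (hp : p.Prime) (h : IDataH p a ν I) : ∃ lam : ℕ → ℂ, ∀ (M : ℕ), 1 ≤ M → ∀ l : ℕ, l.Prime → l ≠ p → l ≠ 5 →
    ∀ i : ℕ, i ≤ 2 * a → ∀ x y : ℤ, (x ≠ 0 ∨ y ≠ 0) →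
    WT a l ((p : ℤ) ^ M) (PhiOf p a I) x y i = lam l * PhiOf p a I x y i := by
  obtain ⟨lam, hlam⟩ := h.hk
  refine ⟨lam, fun M hM l hl hlp hl2 i hi x y hxy => ?_⟩
  obtain ⟨K, rfl⟩ : ∃ K, M = K + 1 := ⟨M - 1, by omega⟩
  have hcop : IsCoprime ((p : ℤ) ^ K) (l : ℤ) := by
    refine IsCoprime.pow_left ?_
    rw [Nat.isCoprime_iff_coprime]
    exact (Nat.coprime_primes hp hl).2 (Ne.symm hlp)
  have hcop' : IsCoprime (-(p : ℤ) ^ K) (l : ℤ) := hcop.neg_left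
  have h1 := hlam l ((p : ℤ) ^ K) hl hlp hl2 hcop i hi x (p * y) (ne_vec hp hxy)
  have h2 := hlam l (-(p : ℤ) ^ K) hl hlp hl2 hcop' i hi (-x) (p * y) (ne_vec hp (by simpa using hxy))
  have e1 : ∀ j : ℕ, ((C (l : ℤ) * X - C ((p : ℤ) ^ (K + 1) * j)) ^ i : Polynomial ℤ).comp (C (p : ℤ) * X) =
      C ((p : ℤ) ^ i) * (C (l : ℤ) * X - C ((p : ℤ) ^ K * j)) ^ i := by
    intro j
    rw [Polynomial.pow_comp, Polynomial.sub_comp, Polynomial.mul_comp, Polynomial.C_comp, Polynomial.X_comp,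
      Polynomial.C_comp, Polynomial.C_pow, ← mul_pow]
    congr 1
    have : (p : ℤ) ^ (K + 1) * j = p * ((p : ℤ) ^ K * j) := by ring
    rw [this, Polynomial.C_mul (a := (p : ℤ))]
    ring
  have e2 : ∀ j : ℕ, ((C (l : ℤ) * X - C ((p : ℤ) ^ (K + 1) * j)) ^ i : Polynomial ℤ).comp (C (-(p : ℤ)) * X) =
      C ((-1) ^ i * (p : ℤ) ^ i) * (C (l : ℤ) * X - C (-(p : ℤ) ^ K * j)) ^ i := by
    intro j
    rw [← mul_pow, Polynomial.pow_comp, Polynomial.sub_comp, Polynomial.mul_comp, Polynomial.C_comp, Polynomial.X_comp,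
      Polynomial.C_comp, Polynomial.C_pow, ← mul_pow]
    congr 1
    have e3 : (p : ℤ) ^ (K + 1) * j = (-1 * p) * (-(p : ℤ) ^ K * j) := by ring
    have e4 : (-(p : ℤ)) = -1 * p := by ring
    rw [e3, e4, Polynomial.C_mul (a := (-1 * (p : ℤ)))]
    ring
  have key : WT a l ((p : ℤ) ^ (K + 1)) (PhiOf p a I) x y i =
      ((p : ℤ) ^ i) • ((∑ j ∈ Finset.range l, pr I ((C (l : ℤ) * X - C ((p : ℤ) ^ K * j)) ^ i)
        (x + (p : ℤ) ^ K * j * (p * y)) (l * (p * y))) + ((l : ℤ) ^ (2 * a - i)) • I (l * x) (p * y) i) +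
      ((-1 : ℤ) ^ (a + i) * (p : ℤ) ^ i) • ((∑ j ∈ Finset.range l, pr I ((C (l : ℤ) * X - C (-(p : ℤ) ^ K * j)) ^ i)
        (-x + -(p : ℤ) ^ K * j * (p * y)) (l * (p * y))) + ((l : ℤ) ^ (2 * a - i)) • I (l * -x) (p * y) i) := by
    simp only [WT]
    have h3 : ∀ j ∈ Finset.range l, pr (PhiOf p a I) ((C (l : ℤ) * X - C ((p : ℤ) ^ (K + 1) * j)) ^ i)
        (x + (p : ℤ) ^ (K + 1) * j * y) (l * y) =
        ((p : ℤ) ^ i) • pr I ((C (l : ℤ) * X - C ((p : ℤ) ^ K * j)) ^ i)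
          (x + (p : ℤ) ^ K * j * (p * y)) (l * (p * y)) +
        ((-1 : ℤ) ^ (a + i) * (p : ℤ) ^ i) • pr I ((C (l : ℤ) * X - C (-(p : ℤ) ^ K * j)) ^ i)
          (-x + -(p : ℤ) ^ K * j * (p * y)) (l * (p * y)) := by
      intro j _
      rw [pr_phi, e1, e2, pr_C_mul, pr_C_mul]
      simp only [Pi.smul_apply, smul_smul]
      have a1 : x + (p : ℤ) ^ (K + 1) * j * y = x + (p : ℤ) ^ K * j * (p * y) := by ring
      have a2 : (p : ℤ) * (l * y) = l * (p * y) := by ring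
      have a3 : -(x + (p : ℤ) ^ K * j * (p * y)) = -x + -(p : ℤ) ^ K * j * (p * y) := by ring
      have a4 : (-1 : ℤ) ^ a * ((-1) ^ i * (p : ℤ) ^ i) = (-1) ^ (a + i) * (p : ℤ) ^ i := by
        rw [pow_add]
        ring
      rw [a1, a2, a3, a4]
    rw [Finset.sum_congr rfl h3, Finset.sum_add_distrib, ← Finset.smul_sum, ← Finset.smul_sum]
    simp only [PhiOf, smul_add]
    have a5 : -((l : ℤ) * x) = l * -x := by ring
    rw [a5, smul_comm ((l : ℤ) ^ (2 * a - i)) ((p : ℤ) ^ i),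
      smul_comm ((l : ℤ) ^ (2 * a - i)) ((-1 : ℤ) ^ (a + i) * (p : ℤ) ^ i)]
    abel
  rw [key, h1, h2]
  simp only [PhiOf, zsmul_eq_mul]
  ring

/-- words -/
private theorem words (hp : p.Prime) (h : IDataH p a ν I) (M : ℕ) (hM : 1 ≤ M) : ∀ ls : List ℕ, OkH 5 p ls → ∃ c : ℂ,
    ∀ i : ℕ, i ≤ 2 * a → ∀ x y : ℤ, (x ≠ 0 ∨ y ≠ 0) →
      WTw a ((p : ℤ) ^ M) ls (PhiOf p a I) x y i = c * PhiOf p a I x y i := by
  obtain ⟨lam, hlam⟩ := hecke hp h
  intro ls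
  induction ls with
  | nil =>
    intro _
    exact ⟨1, fun i _ x y _ => by simp [WTw]⟩
  | cons l ls ih =>
    intro hok
    obtain ⟨c, hc⟩ := ih (fun k hk => hok k (List.mem_cons_of_mem _ hk))
    obtain ⟨hl, hlp, hl2⟩ := hok l List.mem_cons_self
    refine ⟨c * lam l, fun i hi x y hxy => ?_⟩
    have hl0 : (l : ℤ) ≠ 0 := by exact_mod_cast hl.ne_zero
    have hpr : ∀ (P : Polynomial ℤ), P.natDegree ≤ 2 * a → ∀ u v : ℤ, (u ≠ 0 ∨ v ≠ 0) →
        pr (WTw a ((p : ℤ) ^ M) ls (PhiOf p a I)) P u v = c * pr (PhiOf p a I) P u v := by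
      intro P hP u v huv
      rw [pr_eq_sum _ P (2 * a + 1) (by omega), pr_eq_sum _ P (2 * a + 1) (by omega)]
      simp only [Finset.sum_apply, Pi.smul_apply, cp, Finset.mul_sum]
      refine Finset.sum_congr rfl fun k hk => ?_
      rw [Finset.mem_range] at hk
      rw [hc k (by omega) u v huv, mul_smul_comm]
    have h1 := hlam M hM l hl hlp hl2 i hi x y hxy
    have hgoal : WTw a ((p : ℤ) ^ M) (l :: ls) (PhiOf p a I) x y i =
        c * WT a l ((p : ℤ) ^ M) (PhiOf p a I) x y i := by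
      simp only [WTw, WT]
      rw [mul_add, Finset.mul_sum]
      congr 1
      · refine Finset.sum_congr rfl fun j _ => ?_
        refine hpr _ ((deg_lin _ _ _).trans hi) _ _ ?_
        by_cases hy : y = 0
        · left
          subst hy
          simpa using hxy
        · exact Or.inr (mul_ne_zero hl0 hy)
      · rw [hc i hi (l * x) y, mul_smul_comm]
        rcases hxy with hx | hy
        · exact Or.inl (mul_ne_zero hl0 hx)
        · exact Or.inr hy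
    rw [hgoal, h1]
    ring

end

theorem hTr : SHTr := by
  intro p a ν I hp hp2 h h0
  refine ⟨?_, p_eqv hp hp2 h, p_eqq hp hp2 h, p_tt hp h, p_ss hp h, p_fr hp h, p_st h, ?_⟩
  · intro i hi k x y hk hxy
    simp only [cp, PhiOf]
    have h1 := h.hom i hi k x (p * y) hk (ne_vec hp hxy)
    have h2 := h.hom i hi k (-x) (p * y) hk (ne_vec hp (by simpa using hxy))
    simp only [cp] at h1 h2
    have a1 : (p : ℤ) * (k * y) = k * (p * y) := by ring
    have a2 : -(k * x) = k * -x := by ring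
    rw [a1, a2, h1, h2]
  · intro M hM ls hls
    obtain ⟨c, hc⟩ := words hp h M hM ls hls
    rw [hc a (by omega) 1 0 (Or.inl one_ne_zero), hc a (by omega) 0 1 (Or.inr one_ne_zero)]
    have ha := h.hom a (by omega)
    have e1 := ha (-1) 1 0 (by norm_num) (Or.inl one_ne_zero)
    have e2 := ha p 0 1 (ne_p hp) (Or.inr one_ne_zero)
    simp only [cp, mul_one, mul_zero] at e1 e2
    have e3 := h.inf a (by omega)
    simp only [PhiOf, mul_one, mul_zero, neg_zero, e1, e2, e3, h0, smul_zero, add_zero]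

end Pool.Agent.Helper28.T5W
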